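import Pool.Agent.Lib.MP_7592f8.Defs

/-!
# MP_7592f8_co: `L = {0, k}` (helper97): definitions
-/

namespace Cross7592
open Finset

/-- With `n = q (n - k) + ρ`, `ρ < n - k`: the number `q + C(n-ρ,k) + (r-q-1) C(n,k)`, written as
`q + (r-q) C(n,k)` for `ρ = 0`. -/
def valE (n k r : ℕ) : ℕ :=
  if n % (n - k) = 0 then n / (n - k) + (r - n / (n - k)) * n.choose k
  else n / (n - k) + (n - n % (n - k)).choose k + (r - n / (n - k) - 1) * n.choose k

/-- The maximum total size for `L = {0, k}`. -/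
def valK (n k r : ℕ) : ℕ :=
  max (max (r + (r - 1) * (n - k).choose k) (r * (n / k)))
    (if n ≤ r * (n - k) then valE n k r else 0)

/-- The structure of the admissible tuples for `L = {0, k}`: there are pairwise disjoint sets
(`𝒦`) that belong to all families, every point outside them is missed by all members of some
family, and the other members of the families are disjoint from the sets in `𝒦`. -/
def StructK (n k r : ℕ) (𝒜 : Fin r → Finset (Finset (Fin n))) : Prop :=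
  ∃ (𝒦 : Finset (Finset (Fin n))) (X : Fin r → Finset (Fin n)),
    (∀ K ∈ 𝒦, ∀ K' ∈ 𝒦, K ≠ K' → Disjoint K K') ∧
    (∀ x, (∃ K ∈ 𝒦, x ∈ K) ∨ ∃ i, x ∈ X i) ∧
    ∀ i, 𝒦 ⊆ 𝒜 i ∧ ∀ F ∈ 𝒜 i, F ∈ 𝒦 ∨ (Disjoint F (X i) ∧ ∀ K ∈ 𝒦, Disjoint F K)

end Cross7592
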