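import Mathlib

/-! # leaf Z4: the numerical bound with common sets -/

set_option autoImplicit false

namespace CrossZ

private theorem num_step (N k r : ℕ) (hk : 2 ≤ k) (hr : 2 ≤ r) (hN : k ≤ N) :
    r + (r - 1) * N.choose k ≤ (r - 1) * (N + k).choose k := by
  obtain ⟨j, rfl⟩ : ∃ j, k = j + 1 := ⟨k - 1, by omega⟩
  obtain ⟨t, rfl⟩ : ∃ t, r = t + 2 := ⟨r - 2, by omega⟩
  have h1 : (N + 1).choose (j + 1) ≤ (N + (j + 1)).choose (j + 1) :=
    Nat.choose_le_choose (j + 1) (by omega)
  have h2 : (N + 1).choose (j + 1) = N.choose j + N.choose (j + 1) := Nat.choose_succ_succ N j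
  have h3 : (j + 1).choose j ≤ N.choose j := Nat.choose_le_choose j hN
  have h4 : (j + 1).choose j = j + 1 := Nat.choose_succ_self_right j
  have h5 : 2 + N.choose (j + 1) ≤ (N + (j + 1)).choose (j + 1) := by omega
  have h6 : (t + 1) * (2 + N.choose (j + 1)) ≤ (t + 1) * (N + (j + 1)).choose (j + 1) :=
    Nat.mul_le_mul_left _ h5
  have h7 : t + 2 - 1 = t + 1 := by omega
  rw [h7]
  have h8 : (t + 1) * (2 + N.choose (j + 1)) = 2 * (t + 1) + (t + 1) * N.choose (j + 1) := by
    ring
  omega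

private theorem num_chain (N k r : ℕ) (hk : 2 ≤ k) (hr : 2 ≤ r) (hN : k ≤ N) (m : ℕ) :
    r * m + (r - 1) * N.choose k ≤ (r - 1) * (N + k * m).choose k := by
  induction m with
  | zero => simp
  | succ m ih =>
    have h1 := num_step (N + k * m) k r hk hr (by omega)
    have h2 : N + k * (m + 1) = N + k * m + k := by ring
    have h3 : r * (m + 1) = r * m + r := by ring
    rw [h2, h3]
    omega

theorem num_mu (n k r μ : ℕ) (hk : 2 ≤ k) (hr : 2 ≤ r) (hμ : 1 ≤ μ) (hμn : k * μ ≤ n) :
    r * μ + (r - 1) * (n - k * μ).choose k ≤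
      max (r + (r - 1) * (n - k).choose k) (r * (n / k)) := by
  by_cases h : n - k * μ < k
  · rw [Nat.choose_eq_zero_of_lt h, mul_zero, add_zero]
    refine le_max_of_le_right (Nat.mul_le_mul_left r ?_)
    rw [Nat.le_div_iff_mul_le (by omega), mul_comm]
    exact hμn
  · have hN : k ≤ n - k * μ := by omega
    refine le_max_of_le_left ?_
    obtain ⟨m, rfl⟩ : ∃ m, μ = m + 1 := ⟨μ - 1, by omega⟩
    have h1 := num_chain (n - k * (m + 1)) k r hk hr hN m
    have h2 : k * (m + 1) = k * m + k := by ring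
    have h3 : n - k * (m + 1) + k * m = n - k := by omega
    rw [h3] at h1
    have h4 : r * (m + 1) = r * m + r := by ring
    omega

end CrossZ
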