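import Pool.Agent.Lib.MP_7592f8Z.Z3
import Pool.Agent.Lib.MP_7592f8R.A

/-! # leaf Z5: the upper bound without common sets -/

set_option autoImplicit false

namespace CrossZ
open Finset Cross7592

theorem total_le_zero {n k r : ℕ} {𝒜 : Fin r → Finset (Finset (Fin n))} (hk : 2 ≤ k)
    (hkn : k ≤ n) (h : ∀ i, (𝒜 i).Nonempty ∧ ∀ F ∈ 𝒜 i, #F = k) (X : Fin r → Finset (Fin n))
    (hX : ∀ x, ∃ i, x ∈ X i) (hF : ∀ i, ∀ F ∈ 𝒜 i, Disjoint F (X i)) :
    n ≤ r * (n - k) ∧ total 𝒜 ≤ valE n k r := by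
  classical
  -- a point is missed by a member of some family, so `k < n`
  have hlt : k < n := by
    have hn : 0 < n := by omega
    obtain ⟨i, hi⟩ := hX ⟨0, hn⟩
    obtain ⟨F, hFi⟩ := (h i).1
    have h1 : (⟨0, hn⟩ : Fin n) ∉ F := fun h2 => Finset.disjoint_left.1 (hF i F hFi) h2 hi
    have h2 : F ⊆ univ.erase (⟨0, hn⟩ : Fin n) := fun z hz => by
      rw [mem_erase]
      exact ⟨fun h3 => h1 (h3 ▸ hz), mem_univ _⟩
    have h3 := card_le_card h2
    rw [(h i).2 F hFi, card_erase_of_mem (mem_univ _), card_univ, Fintype.card_fin] at h3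
    omega
  choose f hf using hX
  have hsub : ∀ i, (univ.filter fun x => f x = i) ⊆ X i := fun i x hx => by
    rw [mem_filter] at hx
    rw [← hx.2]
    exact hf x
  have hdis : ∀ i, ∀ F ∈ 𝒜 i, Disjoint F (univ.filter fun x => f x = i) := fun i F hFi =>
    Finset.disjoint_of_subset_right (hsub i) (hF i F hFi)
  have hsum : ∑ i, #(univ.filter fun x => f x = i) = n := by
    have h1 := card_eq_sum_card_fiberwise (f := f) (s := (univ : Finset (Fin n)))
      (t := (univ : Finset (Fin r))) (fun x _ => mem_coe.2 (mem_univ _))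
    rw [card_univ, Fintype.card_fin] at h1
    exact h1.symm
  have hx : ∀ i, #(univ.filter fun x => f x = i) ≤ n - k := fun i => by
    obtain ⟨F, hFi⟩ := (h i).1
    have h1 := card_le_univ (F ∪ univ.filter fun x => f x = i)
    rw [card_union_of_disjoint (hdis i F hFi), (h i).2 F hFi, Fintype.card_fin] at h1
    omega
  obtain ⟨h1, h2⟩ := num_E n k r hk hlt (fun i => #(univ.filter fun x => f x = i)) hx hsum
  refine ⟨h1, le_trans ?_ h2⟩
  unfold total
  refine sum_le_sum fun i _ => ?_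
  have h3 : 𝒜 i ⊆ CrossR.sd n k ∅ (univ.filter fun x => f x = i) := fun F hFi => by
    rw [CrossR.mem_sd]
    exact ⟨(h i).2 F hFi, empty_subset _, hdis i F hFi⟩
  have h4 := card_le_card h3
  rw [CrossR.card_sd _ _ (disjoint_empty_left _) (by simp), card_empty] at h4
  simpa using h4

end CrossZ
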