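import Pool.Agent.Lib.MP_7592f8Z.Defs

/-! # leaf Z6: the upper bound with common sets -/

set_option autoImplicit false

namespace CrossZ
open Finset Cross7592

theorem total_le_pos {n k r : ℕ} {𝒜 : Fin r → Finset (Finset (Fin n))} (hk : 1 ≤ k) (hr : 1 ≤ r)
    (h : ∀ i, (𝒜 i).Nonempty ∧ ∀ F ∈ 𝒜 i, #F = k) (𝒦 : Finset (Finset (Fin n)))
    (X : Fin r → Finset (Fin n)) (hd : ∀ K ∈ 𝒦, ∀ K' ∈ 𝒦, K ≠ K' → Disjoint K K')
    (hX : ∀ x, (∃ K ∈ 𝒦, x ∈ K) ∨ ∃ i, x ∈ X i)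
    (hF : ∀ i, 𝒦 ⊆ 𝒜 i ∧ ∀ F ∈ 𝒜 i, F ∈ 𝒦 ∨ (Disjoint F (X i) ∧ ∀ K ∈ 𝒦, Disjoint F K)) :
    k * #𝒦 ≤ n ∧ total 𝒜 ≤ r * #𝒦 + (r - 1) * (n - k * #𝒦).choose k := by
  classical
  have hcard : ∀ K ∈ 𝒦, #K = k := fun K hK => (h ⟨0, hr⟩).2 K ((hF ⟨0, hr⟩).1 hK)
  have hUc : #(𝒦.biUnion id) = k * #𝒦 := by
    have e0 : #(𝒦.biUnion id) = ∑ K ∈ 𝒦, #(id K) :=
      card_biUnion (t := id) (fun K hK K' hK' hne => hd K hK K' hK' hne)
    have e1 : ∑ K ∈ 𝒦, #(id K) = ∑ _K ∈ 𝒦, k := sum_congr rfl (fun K hK => hcard K hK)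
    rw [e0, e1, sum_const, smul_eq_mul, mul_comm]
  have hUn : #(𝒦.biUnion id) ≤ n := by simpa using card_le_univ (𝒦.biUnion id)
  have hUcompl : #(𝒦.biUnion id)ᶜ = n - k * #𝒦 := by
    rw [card_compl, Fintype.card_fin, hUc]
  have hB : ∀ i, ∀ F ∈ 𝒜 i \ 𝒦, F ∈ powersetCard k (𝒦.biUnion id)ᶜ := by
    intro i F hFi
    rw [mem_sdiff] at hFi
    rw [mem_powersetCard]
    refine ⟨fun x hx => ?_, (h i).2 F hFi.1⟩
    rw [mem_compl, mem_biUnion]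
    rintro ⟨K, hK, hxK⟩
    rcases (hF i).2 F hFi.1 with h1 | h1
    · exact hFi.2 h1
    · exact disjoint_left.1 (h1.2 K hK) hx hxK
  have htot : total 𝒜 = r * #𝒦 + ∑ i, #(𝒜 i \ 𝒦) := by
    unfold total
    rw [show r * #𝒦 = ∑ _i : Fin r, #𝒦 by simp, ← sum_add_distrib]
    refine sum_congr rfl fun i _ => ?_
    have := card_sdiff_add_card_eq_card (hF i).1
    omega
  have hsum : ∑ i, #(𝒜 i \ 𝒦) ≤ (r - 1) * #(powersetCard k (𝒦.biUnion id)ᶜ) := by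
    have e1 : ∀ i, #(𝒜 i \ 𝒦) =
        ∑ F ∈ powersetCard k (𝒦.biUnion id)ᶜ, if F ∈ 𝒜 i \ 𝒦 then 1 else 0 := by
      intro i
      rw [← card_filter]
      congr 1
      ext F
      rw [mem_filter]
      exact ⟨fun hh => ⟨hB i F hh, hh⟩, fun hh => hh.2⟩
    rw [sum_congr rfl (fun i _ => e1 i), sum_comm, mul_comm, ← smul_eq_mul]
    refine sum_le_card_nsmul _ _ _ fun F hF' => ?_
    rw [mem_powersetCard] at hF'
    obtain ⟨x, hx⟩ : F.Nonempty := by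
      rw [← card_pos]; omega
    obtain ⟨i₀, hi₀⟩ : ∃ i₀, F ∉ 𝒜 i₀ \ 𝒦 := by
      rcases hX x with ⟨K, hK, hxK⟩ | ⟨i, hi⟩
      · exact absurd (mem_biUnion.2 ⟨K, hK, hxK⟩) (mem_compl.1 (hF'.1 hx))
      · refine ⟨i, fun hc => ?_⟩
        rw [mem_sdiff] at hc
        rcases (hF i).2 F hc.1 with h1 | h1
        · exact hc.2 h1
        · exact disjoint_left.1 h1.1 hx hi
    calc ∑ i, (if F ∈ 𝒜 i \ 𝒦 then 1 else 0) = #(univ.filter fun i => F ∈ 𝒜 i \ 𝒦) := by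
          rw [card_filter]
      _ ≤ #((univ : Finset (Fin r)).erase i₀) := card_le_card fun i hi => by
          rw [mem_filter] at hi
          rw [mem_erase]
          refine ⟨fun hc => ?_, mem_univ _⟩
          rw [hc] at hi
          exact hi₀ hi.2
      _ = r - 1 := by simp
  refine ⟨hUc ▸ hUn, ?_⟩
  rw [htot]
  rw [card_powersetCard, hUcompl] at hsum
  omega

end CrossZ
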