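import Pool.Agent.Lib.MP_7592f8Z.Z2
import Pool.Agent.Lib.MP_7592f8R.A

/-! # leaf Z7: the tuples without common sets -/

set_option autoImplicit false

namespace CrossZ
open Finset Cross7592

private theorem card_block (n d i : ℕ) (hd : 0 < d) :
    #(univ.filter fun x : Fin n => x.1 / d = i) = min n ((i + 1) * d) - i * d := by
  have h1 : (univ.filter fun x : Fin n => x.1 / d = i).map Fin.valEmbedding =
      Finset.Ico (i * d) (min n ((i + 1) * d)) := by
    ext y
    simp only [mem_map, mem_filter, mem_univ, true_and, Fin.valEmbedding_apply, mem_Ico,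
      lt_min_iff]
    constructor
    · rintro ⟨x, hx, rfl⟩
      refine ⟨?_, x.2, ?_⟩
      · rw [← hx]; exact Nat.div_mul_le_self _ _
      · rw [← hx, Nat.mul_comm]; exact Nat.lt_mul_div_succ _ hd
    · rintro ⟨h1, h2, h3⟩
      exact ⟨⟨y, h2⟩, Nat.div_eq_of_lt_le h1 h3, rfl⟩
  rw [← card_map Fin.valEmbedding, h1, Nat.card_Ico]

theorem con_E (n k r : ℕ) (hk : 1 ≤ k) (hkn : k < n) (hn : n ≤ r * (n - k)) :
    ∃ 𝒜 : Fin r → Finset (Finset (Fin n)), Adm n k r {0, k} 𝒜 ∧ valE n k r ≤ total 𝒜 := by
  obtain ⟨d, hd⟩ : ∃ d, d = n - k := ⟨_, rfl⟩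
  have hd0 : 0 < d := by omega
  have hdk : n - d = k := by omega
  rw [← hd] at hn
  have hr : 1 ≤ r := by
    rcases Nat.eq_zero_or_pos r with h | h
    · rw [h, Nat.zero_mul] at hn; omega
    · exact h
  have hcard : ∀ i : ℕ, #(CrossR.sd n k ∅ (univ.filter fun x : Fin n => x.1 / d = i)) =
      (n - (min n ((i + 1) * d) - i * d)).choose k := by
    intro i
    rw [CrossR.card_sd ∅ _ (Finset.disjoint_empty_left _) (by simp), card_block n d i hd0]
    simp
  refine ⟨fun i => CrossR.sd n k ∅ (univ.filter fun x : Fin n => x.1 / d = i.1), ?_, ?_⟩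
  · refine adm_of_struct hr (fun i => ⟨?_, fun F hF => (CrossR.mem_sd.1 hF).1⟩) ?_
    · rw [← Finset.card_pos, hcard]
      apply Nat.choose_pos
      have h1 : min n ((i.1 + 1) * d) - i.1 * d ≤ d := by
        have h2 : min n ((i.1 + 1) * d) ≤ (i.1 + 1) * d := min_le_right _ _
        have h3 : (i.1 + 1) * d = i.1 * d + d := by ring
        omega
      omega
    · refine ⟨∅, fun i => univ.filter fun x : Fin n => x.1 / d = i.1, by simp, ?_, ?_⟩
      · intro x
        right
        have h1 : x.1 / d < r := by
          rw [Nat.div_lt_iff_lt_mul hd0]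
          exact lt_of_lt_of_le x.2 hn
        exact ⟨⟨x.1 / d, h1⟩, by simp⟩
      · intro i
        refine ⟨Finset.empty_subset _, fun F hF => Or.inr ⟨(CrossR.mem_sd.1 hF).2.2, by simp⟩⟩
  · have htot : total (fun i : Fin r => CrossR.sd n k ∅
        (univ.filter fun x : Fin n => x.1 / d = i.1)) =
        ∑ i ∈ range r, (n - (min n ((i + 1) * d) - i * d)).choose k := by
      unfold total
      rw [← Fin.sum_univ_eq_sum_range (fun i => (n - (min n ((i + 1) * d) - i * d)).choose k) r]
      exact Finset.sum_congr rfl fun i _ => hcard i.1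
    rw [htot]
    obtain ⟨q, hq⟩ : ∃ q, q = n / d := ⟨_, rfl⟩
    obtain ⟨ρ, hρ⟩ : ∃ ρ, ρ = n % d := ⟨_, rfl⟩
    have hdiv : q * d + ρ = n := by
      rw [hq, hρ, Nat.mul_comm]; exact Nat.div_add_mod n d
    have hρd : ρ < d := by rw [hρ]; exact Nat.mod_lt _ hd0
    have hlow : ∀ i, i < q → (n - (min n ((i + 1) * d) - i * d)).choose k = 1 := by
      intro i hi
      have h1 : (i + 1) * d ≤ q * d := Nat.mul_le_mul_right d hi
      have h2 : min n ((i + 1) * d) = (i + 1) * d := min_eq_right (by omega)
      have h3 : (i + 1) * d = i * d + d := by ring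
      rw [h2, h3, Nat.add_sub_cancel_left, hdk, Nat.choose_self]
    have hmid : (n - (min n ((q + 1) * d) - q * d)).choose k = (n - ρ).choose k := by
      have h3 : (q + 1) * d = q * d + d := by ring
      have h2 : min n ((q + 1) * d) = n := min_eq_left (by omega)
      rw [h2]
      congr 2
      omega
    have hhigh : ∀ i, q < i → (n - (min n ((i + 1) * d) - i * d)).choose k = n.choose k := by
      intro i hi
      have h1 : (q + 1) * d ≤ i * d := Nat.mul_le_mul_right d hi
      have h3 : (q + 1) * d = q * d + d := by ring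
      have h4 : min n ((i + 1) * d) ≤ n := min_le_left _ _
      congr 1
      omega
    unfold valE
    rw [← hd, ← hq, ← hρ]
    split_ifs with h0
    · -- ρ = 0
      have hqr : q ≤ r := by
        by_contra h
        have h1 : (r + 1) * d ≤ q * d := Nat.mul_le_mul_right d (by omega)
        have h3 : (r + 1) * d = r * d + d := by ring
        omega
      obtain ⟨s, rfl⟩ := Nat.exists_eq_add_of_le hqr
      rw [Finset.sum_range_add]
      have e1 : ∑ i ∈ range q, (n - (min n ((i + 1) * d) - i * d)).choose k = q := by
        rw [Finset.sum_congr rfl fun i hi => hlow i (mem_range.1 hi)]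
        simp
      have e2 : ∑ i ∈ range s, (n - (min n ((q + i + 1) * d) - (q + i) * d)).choose k =
          s * n.choose k := by
        rw [Finset.sum_congr rfl (g := fun _ => n.choose k)]
        · simp
        · intro i _
          rcases Nat.eq_zero_or_pos i with h | h
          · subst h
            simp only [Nat.add_zero]
            rw [hmid, h0, Nat.sub_zero]
          · exact hhigh (q + i) (by omega)
      rw [e1, e2, Nat.add_sub_cancel_left]
    · have hqr : q < r := by
        by_contra h
        have h1 : r * d ≤ q * d := Nat.mul_le_mul_right d (by omega)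
        omega
      obtain ⟨s, rfl⟩ := Nat.exists_eq_add_of_le (Nat.succ_le_of_lt hqr)
      have hs : q.succ + s = q + (s + 1) := by omega
      rw [hs, Finset.sum_range_add, Finset.sum_range_succ']
      have e1 : ∑ i ∈ range q, (n - (min n ((i + 1) * d) - i * d)).choose k = q := by
        rw [Finset.sum_congr rfl fun i hi => hlow i (mem_range.1 hi)]
        simp
      have e2 : ∑ i ∈ range s, (n - (min n ((q + (i + 1) + 1) * d) - (q + (i + 1)) * d)).choose k =
          s * n.choose k := by
        rw [Finset.sum_congr rfl (g := fun _ => n.choose k)]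
        · simp
        · intro i _
          exact hhigh (q + (i + 1)) (by omega)
      rw [e1, e2]
      simp only [Nat.add_zero]
      rw [hmid]
      have e3 : q + (s + 1) - q - 1 = s := by omega
      rw [e3]
      omega

end CrossZ
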