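import Pool.Agent.Lib.MP_7592f8Z.Z2
import Pool.Agent.Lib.MP_7592f8R.A

/-! # leaf Z8: the tuples with common sets -/

set_option autoImplicit false

namespace CrossZ
open Finset Cross7592

theorem con_one (n k r : ℕ) (hk : 1 ≤ k) (hkn : k ≤ n) (hr : 1 ≤ r) :
    ∃ 𝒜 : Fin r → Finset (Finset (Fin n)), Adm n k r {0, k} 𝒜 ∧
      r + (r - 1) * (n - k).choose k ≤ total 𝒜 := by
  classical
  obtain ⟨K, -, hK⟩ := exists_subset_card_eq (s := (univ : Finset (Fin n))) (n := k)
    (by rw [card_univ, Fintype.card_fin]; exact hkn)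
  let i0 : Fin r := ⟨0, hr⟩
  let A : Fin r → Finset (Finset (Fin n)) := fun i =>
    if i = i0 then {K} else insert K (CrossR.sd n k ∅ K)
  have hA0 : A i0 = {K} := by simp [A]
  have hA1 : ∀ i, i ≠ i0 → A i = insert K (CrossR.sd n k ∅ K) := fun i hi => by
    simp only [A]
    rw [if_neg hi]
  have hKm : ∀ i, K ∈ A i := by
    intro i
    by_cases hi : i = i0
    · rw [hi, hA0]; exact mem_singleton_self _
    · rw [hA1 i hi]; exact mem_insert_self _ _
  have hcs : ∀ i, ∀ F ∈ A i, F = K ∨ (i ≠ i0 ∧ #F = k ∧ Disjoint F K) := by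
    intro i F hF
    by_cases hi : i = i0
    · rw [hi, hA0, mem_singleton] at hF
      exact Or.inl hF
    · rw [hA1 i hi, mem_insert, CrossR.mem_sd] at hF
      rcases hF with h | h
      · exact Or.inl h
      · exact Or.inr ⟨hi, h.1, h.2.2⟩
  refine ⟨A, adm_of_struct hr (fun i => ⟨⟨K, hKm i⟩, fun F hF => ?_⟩)
    ⟨{K}, fun i => if i = i0 then univ else ∅, ?_, ?_, fun i => ⟨?_, fun F hF => ?_⟩⟩, ?_⟩
  · rcases hcs i F hF with h | h
    · rw [h, hK]
    · exact h.2.1
  · intro K1 h1 K2 h2 hne
    rw [mem_singleton] at h1 h2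
    exact absurd (h1.trans h2.symm) hne
  · intro x
    refine Or.inr ⟨i0, ?_⟩
    simp
  · intro F hF
    rw [mem_singleton] at hF
    rw [hF]
    exact hKm i
  · rcases hcs i F hF with h | h
    · exact Or.inl (mem_singleton.2 h)
    · refine Or.inr ⟨?_, fun K' hK' => ?_⟩
      · show Disjoint F (if i = i0 then univ else ∅)
        rw [if_neg h.1]
        exact disjoint_empty_right _
      · rw [mem_singleton] at hK'
        rw [hK']
        exact h.2.2
  · have hKn : K ∉ CrossR.sd n k ∅ K := by
      rw [CrossR.mem_sd]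
      rintro ⟨-, -, h3⟩
      rw [disjoint_self_iff_empty] at h3
      rw [h3, card_empty] at hK
      omega
    have hc : #(CrossR.sd n k ∅ K) = (n - k).choose k := by
      rw [CrossR.card_sd ∅ K (disjoint_empty_left _) (by simp), card_empty, hK]
      simp
    unfold total
    rw [← add_sum_erase univ (fun i => #(A i)) (mem_univ i0)]
    have h1 : ∑ i ∈ univ.erase i0, #(A i) = (r - 1) * ((n - k).choose k + 1) := by
      rw [sum_congr rfl (g := fun _ => (n - k).choose k + 1) (fun i hi => by
        rw [hA1 i (ne_of_mem_erase hi), card_insert_of_notMem hKn, hc]), sum_const,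
        card_erase_of_mem (mem_univ _), card_univ, Fintype.card_fin, smul_eq_mul]
    rw [h1, hA0, card_singleton, mul_add]
    omega

theorem con_all (n k r : ℕ) (hk : 1 ≤ k) (hkn : k ≤ n) (hr : 1 ≤ r) :
    ∃ 𝒜 : Fin r → Finset (Finset (Fin n)), Adm n k r {0, k} 𝒜 ∧ r * (n / k) ≤ total 𝒜 := by
  classical
  let K : ℕ → Finset (Fin n) := fun j => univ.filter fun x : Fin n => x.1 / k = j
  have hmem : ∀ j x, x ∈ K j ↔ x.1 / k = j := fun j x => by simp [K]
  have hcard : ∀ j, j < n / k → #(K j) = k := by
    intro j hj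
    have h1 : (K j).map Fin.valEmbedding = Ico (j * k) (j * k + k) := by
      ext y
      rw [mem_map, mem_Ico]
      constructor
      · rintro ⟨x, hx, rfl⟩
        rw [hmem] at hx
        have h2 := Nat.div_add_mod x.1 k
        have h3 := Nat.mod_lt x.1 hk
        rw [hx] at h2
        show j * k ≤ x.1 ∧ x.1 < j * k + k
        rw [mul_comm k j] at h2
        generalize j * k = c at h2 ⊢
        omega
      · rintro ⟨h2, h3⟩
        have h4 : (j + 1) * k ≤ n := by
          have h5 : j + 1 ≤ n / k := hj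
          have h6 := Nat.div_mul_le_self n k
          exact (Nat.mul_le_mul_right k h5).trans h6
        have h5 : y < n := by
          have : j * k + k = (j + 1) * k := by ring
          omega
        refine ⟨⟨y, h5⟩, ?_, rfl⟩
        rw [hmem]
        show y / k = j
        rw [Nat.div_eq_iff hk]
        constructor
        · exact h2
        · omega
    have h2 := congrArg Finset.card h1
    rw [card_map, Nat.card_Ico] at h2
    omega
  have hdisj : ∀ j j', j ≠ j' → Disjoint (K j) (K j') := by
    intro j j' hjj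
    rw [disjoint_left]
    intro x h1 h2
    rw [hmem] at h1 h2
    exact hjj (h1.symm.trans h2)
  have hinj : Set.InjOn K (range (n / k) : Finset ℕ) := by
    intro j hj j' hj' hjj
    by_contra hne
    have h1 := hdisj j j' hne
    rw [← hjj, disjoint_self_iff_empty] at h1
    have h2 := hcard j (by simpa using hj)
    rw [h1, card_empty] at h2
    omega
  have hpos : 0 < n / k := Nat.div_pos hkn hk
  refine ⟨fun _ => (range (n / k)).image K, adm_of_struct hr (fun i => ⟨⟨K 0, ?_⟩, fun F hF => ?_⟩)
    ⟨(range (n / k)).image K, fun _ => univ, ?_, ?_, fun i => ⟨subset_rfl, fun F hF => Or.inl hF⟩⟩, ?_⟩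
  · exact mem_image_of_mem _ (mem_range.2 hpos)
  · rw [mem_image] at hF
    obtain ⟨j, hj, rfl⟩ := hF
    exact hcard j (mem_range.1 hj)
  · intro K1 h1 K2 h2 hne
    rw [mem_image] at h1 h2
    obtain ⟨j, hj, rfl⟩ := h1
    obtain ⟨j', hj', rfl⟩ := h2
    exact hdisj j j' fun h => hne (by rw [h])
  · intro x
    exact Or.inr ⟨⟨0, hr⟩, mem_univ _⟩
  · unfold total
    rw [sum_const, card_image_of_injOn hinj, card_range, card_univ, Fintype.card_fin, smul_eq_mul]

end CrossZ
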