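import Pool.Agent.Lib.MP_7592f8Z.Z1
import Pool.Agent.Lib.MP_7592f8Z.Z4
import Pool.Agent.Lib.MP_7592f8Z.Z5
import Pool.Agent.Lib.MP_7592f8Z.Z6
import Pool.Agent.Lib.MP_7592f8Z.Z7
import Pool.Agent.Lib.MP_7592f8Z.Z8

/-!
# MP_7592f8_co: `L = {0, k}` (helper97): the main theorem
-/

namespace Cross7592
open Finset CrossZ

theorem mainZ (n k r : ℕ) (hk : 2 ≤ k) (hkn : k ≤ n) (hr : 2 ≤ r) :
    (∀ 𝒜 : Fin r → Finset (Finset (Fin n)), Adm n k r {0, k} 𝒜 ↔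
      (∀ i, (𝒜 i).Nonempty ∧ ∀ F ∈ 𝒜 i, #F = k) ∧ StructK n k r 𝒜) ∧
    IsGreatest (totals n k r {0, k}) (valK n k r) := by
  have hiff : ∀ 𝒜 : Fin r → Finset (Finset (Fin n)), Adm n k r {0, k} 𝒜 ↔
      (∀ i, (𝒜 i).Nonempty ∧ ∀ F ∈ 𝒜 i, #F = k) ∧ StructK n k r 𝒜 := fun 𝒜 =>
    ⟨fun h => ⟨fun i => ⟨h.ne i, h.sub i⟩, struct_of_adm (by omega) hr h⟩,
      fun h => adm_of_struct (by omega) h.1 h.2⟩
  have hup : ∀ 𝒜 : Fin r → Finset (Finset (Fin n)), Adm n k r {0, k} 𝒜 →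
      total 𝒜 ≤ valK n k r := by
    intro 𝒜 hA
    obtain ⟨h, 𝒦, X, hd, hX, hF⟩ := (hiff 𝒜).1 hA
    rcases 𝒦.eq_empty_or_nonempty with h0 | h0
    · subst h0
      obtain ⟨h1, h2⟩ := total_le_zero hk hkn h X (fun x => by simpa using hX x)
        (fun i F hFi => by simpa using (hF i).2 F hFi)
      unfold valK
      rw [if_pos h1]
      exact h2.trans (le_max_right _ _)
    · obtain ⟨h1, h2⟩ := total_le_pos (by omega) (by omega) h 𝒦 X hd hX hF
      exact (h2.trans (num_mu n k r _ hk hr (card_pos.2 h0) h1)).trans (le_max_left _ _)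
  refine ⟨hiff, ?_, ?_⟩
  · have hex : ∃ 𝒜 : Fin r → Finset (Finset (Fin n)), Adm n k r {0, k} 𝒜 ∧
        valK n k r ≤ total 𝒜 := by
      obtain ⟨𝒜₁, a1, a2⟩ := con_one n k r (by omega) hkn (by omega)
      obtain ⟨𝒜₂, b1, b2⟩ := con_all n k r (by omega) hkn (by omega)
      have h12 : ∃ 𝒜 : Fin r → Finset (Finset (Fin n)), Adm n k r {0, k} 𝒜 ∧
          max (r + (r - 1) * (n - k).choose k) (r * (n / k)) ≤ total 𝒜 := by
        rcases le_total (r + (r - 1) * (n - k).choose k) (r * (n / k)) with h | h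
        · exact ⟨𝒜₂, b1, max_le (h.trans b2) b2⟩
        · exact ⟨𝒜₁, a1, max_le a2 (h.trans a2)⟩
      obtain ⟨𝒜, c1, c2⟩ := h12
      unfold valK
      split_ifs with h3
      · have h4 : k < n := by
          rcases hkn.lt_or_eq with h | h
          · exact h
          · subst h
            simp at h3
            omega
        obtain ⟨𝒜₃, d1, d2⟩ := con_E n k r (by omega) h4 h3
        rcases le_total (max (r + (r - 1) * (n - k).choose k) (r * (n / k))) (valE n k r) with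
          h | h
        · exact ⟨𝒜₃, d1, max_le (h.trans d2) d2⟩
        · exact ⟨𝒜, c1, max_le c2 (h.trans c2)⟩
      · exact ⟨𝒜, c1, max_le c2 (Nat.zero_le _)⟩
    obtain ⟨𝒜, h1, h2⟩ := hex
    exact ⟨𝒜, h1, le_antisymm h2 (hup 𝒜 h1)⟩
  · rintro s ⟨𝒜, h1, rfl⟩
    exact hup 𝒜 h1

end Cross7592
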