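import Pool.Agent.Lib.MP_7592f8Z.Defs

/-! # leaf Z1: the structure of the admissible tuples -/

set_option autoImplicit false

namespace CrossZ
open Finset Cross7592

private theorem z1_all_eq {n k r : ℕ} {𝒜 : Fin r → Finset (Finset (Fin n))}
    (h : Adm n k r {0, k} 𝒜) {G : Fin r → Finset (Fin n)} (hG : ∀ i, G i ∈ 𝒜 i) {v : Fin n}
    (hv : ∀ i, v ∈ G i) (i : Fin r) : G i = common G := by
  have h1 : v ∈ common G := by
    simp only [common, mem_filter, mem_univ, true_and]
    exact hv
  have h2 := h.cross G hG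
  rw [mem_insert, mem_singleton] at h2
  have h3 : #(common G) = k := by
    rcases h2 with h2 | h2
    · rw [card_eq_zero] at h2
      rw [h2] at h1
      exact absurd h1 (notMem_empty v)
    · exact h2
  have h4 : common G ⊆ G i := by
    intro x hx
    simp only [common, mem_filter, mem_univ, true_and] at hx
    exact hx i
  refine (eq_of_subset_of_card_le h4 ?_).symm
  rw [h3, h.sub i (G i) (hG i)]

private theorem z1_star {n k r : ℕ} {𝒜 : Fin r → Finset (Finset (Fin n))} (hr : 2 ≤ r)
    (h : Adm n k r {0, k} 𝒜) {v : Fin n} (hv : ∀ i, ∃ F ∈ 𝒜 i, v ∈ F) :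
    ∃ K : Finset (Fin n), v ∈ K ∧ (∀ i, K ∈ 𝒜 i) ∧ ∀ i, ∀ F ∈ 𝒜 i, v ∈ F → F = K := by
  choose F hF hvF using hv
  have hall := z1_all_eq h hF hvF
  refine ⟨common F, ?_, ?_, ?_⟩
  · simp only [common, mem_filter, mem_univ, true_and]
    exact hvF
  · intro i
    rw [← hall i]
    exact hF i
  · intro i F' hF' hvF'
    have hG : ∀ j, Function.update F i F' j ∈ 𝒜 j := by
      intro j
      by_cases hj : j = i
      · subst hj
        rw [Function.update_self]
        exact hF'
      · rw [Function.update_of_ne hj]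
        exact hF j
    have hvG : ∀ j, v ∈ Function.update F i F' j := by
      intro j
      by_cases hj : j = i
      · subst hj
        rw [Function.update_self]
        exact hvF'
      · rw [Function.update_of_ne hj]
        exact hvF j
    have hall' := z1_all_eq h hG hvG
    obtain ⟨j, hj⟩ : ∃ j : Fin r, j ≠ i := by
      by_cases h0 : i = ⟨0, by omega⟩
      · refine ⟨⟨1, by omega⟩, ?_⟩
        rw [h0]
        intro h1
        have := congrArg Fin.val h1
        simp at this
      · exact ⟨⟨0, by omega⟩, fun h1 => h0 h1.symm⟩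
    have e1 := hall' i
    have e2 := hall' j
    rw [Function.update_self] at e1
    rw [Function.update_of_ne hj] at e2
    rw [e1, ← e2, hall j]

theorem struct_of_adm {n k r : ℕ} {𝒜 : Fin r → Finset (Finset (Fin n))} (hk : 1 ≤ k) (hr : 2 ≤ r)
    (h : Adm n k r {0, k} 𝒜) : StructK n k r 𝒜 := by
  classical
  refine ⟨univ.filter fun K => K.Nonempty ∧ ∀ i, K ∈ 𝒜 i ∧ ∀ v ∈ K, ∀ F ∈ 𝒜 i, v ∈ F → F = K,
    fun i => univ.filter fun x => ∀ F ∈ 𝒜 i, x ∉ F, ?_, ?_, ?_⟩
  · intro K hK K' hK' hne
    rw [mem_filter] at hK hK'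
    rw [Finset.disjoint_left]
    intro v hv hv'
    have i : Fin r := ⟨0, by omega⟩
    exact hne ((hK.2.2 i).2 v hv K' (hK'.2.2 i).1 hv').symm
  · intro x
    by_cases hx : ∃ i, ∀ F ∈ 𝒜 i, x ∉ F
    · obtain ⟨i, hi⟩ := hx
      refine Or.inr ⟨i, ?_⟩
      rw [mem_filter]
      exact ⟨mem_univ _, hi⟩
    · left
      push_neg at hx
      obtain ⟨K, hxK, hK, hKu⟩ := z1_star hr h hx
      refine ⟨K, ?_, hxK⟩
      rw [mem_filter]
      refine ⟨mem_univ _, ⟨x, hxK⟩, fun i => ⟨hK i, ?_⟩⟩
      intro v hv F hF hvF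
      obtain ⟨K', _, _, hKu'⟩ := z1_star hr h (v := v) fun j => ⟨K, hK j, hv⟩
      rw [hKu' i F hF hvF, hKu' i K (hK i) hv]
  · intro i
    refine ⟨?_, ?_⟩
    · intro K hK
      rw [mem_filter] at hK
      exact (hK.2.2 i).1
    · intro F hF
      by_cases hFK : F ∈ univ.filter fun K : Finset (Fin n) =>
          K.Nonempty ∧ ∀ i, K ∈ 𝒜 i ∧ ∀ v ∈ K, ∀ F ∈ 𝒜 i, v ∈ F → F = K
      · exact Or.inl hFK
      · refine Or.inr ⟨?_, ?_⟩
        · rw [Finset.disjoint_left]
          intro x hx hx'
          rw [mem_filter] at hx'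
          exact hx'.2 F hF hx
        · intro K hK
          rw [Finset.disjoint_left]
          intro v hv hv'
          have hK2 := hK
          rw [mem_filter] at hK2
          have e := (hK2.2.2 i).2 v hv' F hF hv
          rw [e] at hFK
          exact hFK hK

end CrossZ
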