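import Pool.Agent.Lib.MP_7592f8Z.Defs

/-! # leaf Z2: the tuples with the structure are admissible -/

set_option autoImplicit false

namespace CrossZ
open Finset Cross7592

private theorem z2_mem_common {n r : ℕ} {A : Fin r → Finset (Fin n)} {x : Fin n} :
    x ∈ common A ↔ ∀ i, x ∈ A i := by
  simp [common]

private theorem z2_key {n k r : ℕ} {𝒜 : Fin r → Finset (Finset (Fin n))} (hr : 1 ≤ r)
    (h : ∀ i, (𝒜 i).Nonempty ∧ ∀ F ∈ 𝒜 i, #F = k) {𝒦 : Finset (Finset (Fin n))}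
    {X : Fin r → Finset (Fin n)}
    (hd : ∀ K ∈ 𝒦, ∀ K' ∈ 𝒦, K ≠ K' → Disjoint K K')
    (h3 : ∀ i, 𝒦 ⊆ 𝒜 i ∧ ∀ F ∈ 𝒜 i, F ∈ 𝒦 ∨ (Disjoint F (X i) ∧ ∀ K ∈ 𝒦, Disjoint F K))
    {A : Fin r → Finset (Fin n)} (hA : ∀ i, A i ∈ 𝒜 i) {x : Fin n} (hx : ∀ i, x ∈ A i)
    {K : Finset (Fin n)} (hK : K ∈ 𝒦) (hxK : x ∈ K) : #(common A) = k := by
  have h4 : ∀ i, A i = K := by
    intro i
    rcases (h3 i).2 _ (hA i) with h5 | ⟨-, h5⟩
    · by_contra hne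
      exact Finset.disjoint_left.1 (hd _ h5 _ hK hne) (hx i) hxK
    · exact absurd hxK (Finset.disjoint_left.1 (h5 K hK) (hx i))
  have h5 : common A = K := by
    ext y
    rw [z2_mem_common]
    constructor
    · intro hy
      rw [← h4 ⟨0, hr⟩]
      exact hy _
    · intro hy i
      rw [h4 i]
      exact hy
  rw [h5]
  exact (h ⟨0, hr⟩).2 K ((h3 ⟨0, hr⟩).1 hK)

theorem adm_of_struct {n k r : ℕ} {𝒜 : Fin r → Finset (Finset (Fin n))} (hr : 1 ≤ r)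
    (h : ∀ i, (𝒜 i).Nonempty ∧ ∀ F ∈ 𝒜 i, #F = k) (hs : StructK n k r 𝒜) :
    Adm n k r {0, k} 𝒜 := by
  obtain ⟨𝒦, X, hd, hc, h3⟩ := hs
  refine ⟨fun i => (h i).2, fun i => (h i).1, fun A hA => ?_⟩
  rw [mem_insert, mem_singleton]
  rcases (common A).eq_empty_or_nonempty with h0 | ⟨x, hx⟩
  · left
    rw [h0, card_empty]
  · right
    rw [z2_mem_common] at hx
    rcases hc x with ⟨K, hK, hxK⟩ | ⟨i, hi⟩
    · exact z2_key hr h hd h3 hA hx hK hxK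
    · rcases (h3 i).2 _ (hA i) with h5 | ⟨h5, -⟩
      · exact z2_key hr h hd h3 hA hx h5 (hx i)
      · exact absurd hi (Finset.disjoint_left.1 h5 (hx i))

end CrossZ
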