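import Pool.Agent.Lib.MP_7592f8Z.Defs
import Pool.Agent.Lib.MP_7592f8R.F3

/-! # leaf Z3: the numerical bound without common sets -/

set_option autoImplicit false

namespace CrossZ
open Finset Cross7592

theorem num_E (n k r : ℕ) (hk : 2 ≤ k) (hkn : k < n) (x : Fin r → ℕ) (hx : ∀ i, x i ≤ n - k)
    (hs : ∑ i, x i = n) :
    n ≤ r * (n - k) ∧ ∑ i, (n - x i).choose k ≤ valE n k r := by
  have hd : 0 < n - k := by omega
  have hle : n ≤ r * (n - k) := by
    calc n = ∑ i, x i := hs.symm
      _ ≤ ∑ _i : Fin r, (n - k) := Finset.sum_le_sum fun i _ => hx i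
      _ = r * (n - k) := by simp
  refine ⟨hle, ?_⟩
  rcases lt_or_ge (n / (n - k)) r with h | h
  · have h2 := (CrossR.sum_le n k (n - k) r hk hd (by omega) h x hx hs).1
    unfold valE
    split_ifs with h0
    · rw [h0, Nat.sub_zero] at h2
      have h3 : r - n / (n - k) = (r - n / (n - k) - 1) + 1 := by omega
      calc ∑ i, (n - x i).choose k
          ≤ n / (n - k) + n.choose k + (r - n / (n - k) - 1) * n.choose k := h2
        _ = n / (n - k) + ((r - n / (n - k) - 1) + 1) * n.choose k := by ring
        _ = n / (n - k) + (r - n / (n - k)) * n.choose k := by rw [← h3]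
    · exact h2
  · have h1 : r * (n - k) ≤ n := (Nat.le_div_iff_mul_le hd).1 h
    have h2 : r * (n - k) = n := le_antisymm h1 hle
    have hsum : ∑ i, x i = ∑ _i : Fin r, (n - k) := by
      rw [hs]; simp [h2]
    have hall : ∀ i, x i = n - k := by
      have h3 := (Finset.sum_eq_sum_iff_of_le (s := (Finset.univ : Finset (Fin r)))
        (fun i _ => hx i)).1 hsum
      exact fun i => h3 i (Finset.mem_univ i)
    have h4 : n / (n - k) = r := Nat.div_eq_of_eq_mul_left hd h2.symm
    have h5 : n % (n - k) = 0 := Nat.mod_eq_zero_of_dvd ⟨r, by rw [mul_comm]; exact h2.symm⟩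
    unfold valE
    rw [if_pos h5, h4, Nat.sub_self, zero_mul, add_zero]
    apply le_of_eq
    calc ∑ i, (n - x i).choose k = ∑ _i : Fin r, 1 := by
          refine Finset.sum_congr rfl fun i _ => ?_
          rw [hall i, Nat.sub_sub_self hkn.le, Nat.choose_self]
      _ = r := by simp

end CrossZ
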